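import Pool.Agent.Q298.SQ.Val

/-!
# Independent algebraic integers
-/

set_option autoImplicit false

namespace Pool.Agent.Q298.SQ

open Polynomial Module
open scoped IntermediateField

/-- `X ^ m + 15 X ^ (m - 1) + 24` -/
noncomputable def pol (m : ℕ) : ℤ[X] := X ^ m + (C 15 * X ^ (m - 1) + C 24)

theorem pol_natDegree {m : ℕ} (hm : 2 ≤ m) : (C (15 : ℤ) * X ^ (m - 1) + C 24).natDegree < m := by
  refine lt_of_le_of_lt (Polynomial.natDegree_add_le _ _) ?_
  rw [Polynomial.natDegree_C]
  refine max_lt ?_ (by omega)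
  refine lt_of_le_of_lt (Polynomial.natDegree_C_mul_X_pow_le _ _) (by omega)

theorem pol_degree {m : ℕ} (hm : 2 ≤ m) :
    (C (15 : ℤ) * X ^ (m - 1) + C 24).degree < (m : WithBot ℕ) := by
  refine lt_of_le_of_lt Polynomial.degree_le_natDegree ?_
  exact_mod_cast pol_natDegree hm

theorem pol_monic {m : ℕ} (hm : 2 ≤ m) : (pol m).Monic :=
  Polynomial.monic_X_pow_add (pol_degree hm)

theorem pol_deg {m : ℕ} (hm : 2 ≤ m) : (pol m).natDegree = m := by
  unfold pol
  rw [Polynomial.natDegree_add_eq_left_of_natDegree_lt]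
  · exact Polynomial.natDegree_X_pow m
  · rw [Polynomial.natDegree_X_pow]
    exact pol_natDegree hm

theorem pol_coeff {m : ℕ} (n : ℕ) (hn : n < m) :
    (pol m).coeff n = (if n = m - 1 then 15 else 0) + (if n = 0 then 24 else 0) := by
  unfold pol
  rw [Polynomial.coeff_add, Polynomial.coeff_add, Polynomial.coeff_X_pow,
    Polynomial.coeff_C_mul_X_pow, Polynomial.coeff_C, if_neg (by omega), zero_add]

theorem pol_irreducible {m : ℕ} (hm : 2 ≤ m) : Irreducible (pol m) := by
  have h3 : (Ideal.span {(3 : ℤ)}).IsPrime := by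
    rw [Ideal.span_singleton_prime (by norm_num)]
    exact Int.prime_three
  have hE : (pol m).IsEisensteinAt (Ideal.span {(3 : ℤ)}) := by
    refine ⟨?_, ?_, ?_⟩
    · rw [(pol_monic hm).leadingCoeff, Ideal.mem_span_singleton]
      norm_num
    · intro n hn
      rw [pol_deg hm] at hn
      rw [pol_coeff n hn, Ideal.mem_span_singleton]
      split_ifs <;> norm_num
    · rw [pol_coeff 0 (by omega), if_neg (by omega), if_pos rfl, Ideal.span_singleton_pow,
        Ideal.mem_span_singleton]
      norm_num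
  exact hE.irreducible h3 (pol_monic hm).isPrimitive (by rw [pol_deg hm]; omega)

/-- the polynomial over `ℚ` -/
noncomputable def polQ (m : ℕ) : ℚ[X] := (pol m).map (Int.castRingHom ℚ)

theorem polQ_irreducible {m : ℕ} (hm : 2 ≤ m) : Irreducible (polQ m) :=
  (Polynomial.IsPrimitive.Int.irreducible_iff_irreducible_map_cast (pol_monic hm).isPrimitive).1
    (pol_irreducible hm)

theorem polQ_monic {m : ℕ} (hm : 2 ≤ m) : (polQ m).Monic := (pol_monic hm).map _

theorem polQ_deg {m : ℕ} (hm : 2 ≤ m) : (polQ m).natDegree = m := by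
  unfold polQ
  rw [(pol_monic hm).natDegree_map, pol_deg hm]

theorem aeval_polQ (m : ℕ) (x : QBar) :
    aeval x (polQ m) = x ^ m + (15 * x ^ (m - 1) + 24) := by
  have h1 : polQ m = X ^ m + (C 15 * X ^ (m - 1) + C 24) := by
    unfold polQ pol
    rw [Polynomial.map_add, Polynomial.map_add, Polynomial.map_mul, Polynomial.map_pow,
      Polynomial.map_pow, Polynomial.map_X, Polynomial.map_C, Polynomial.map_C]
    simp only [eq_intCast, Int.cast_ofNat]
  rw [h1, map_add, map_add, map_mul, map_pow, map_pow, Polynomial.aeval_X, Polynomial.aeval_C,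
    Polynomial.aeval_C]
  simp only [map_ofNat]

/-- the degrees -/
noncomputable def dg (k : ℕ) : ℕ := Nat.nth Nat.Prime k

theorem dg_prime (k : ℕ) : (dg k).Prime := Nat.prime_nth_prime k

theorem dg_two (k : ℕ) : 2 ≤ dg k := (dg_prime k).two_le

theorem dg_inj {k l : ℕ} (h : k < l) : dg k ≠ dg l :=
  (Nat.nth_strictMono Nat.infinite_setOfPred_prime h).ne

theorem exists_root_polQ (m : ℕ) (hm : 2 ≤ m) : ∃ x : QBar, aeval x (polQ m) = 0 :=
  IsAlgClosed.exists_aeval_eq_zero QBar (polQ m) (by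
    rw [Polynomial.degree_eq_natDegree (polQ_monic hm).ne_zero, polQ_deg hm]
    exact_mod_cast (by omega : m ≠ 0))

/-- the algebraic integers -/
noncomputable def al (k : ℕ) : QBar := (exists_root_polQ (dg k) (dg_two k)).choose

theorem al_root (k : ℕ) : aeval (al k) (polQ (dg k)) = 0 :=
  (exists_root_polQ (dg k) (dg_two k)).choose_spec

theorem al_minpoly (k : ℕ) : minpoly ℚ (al k) = polQ (dg k) :=
  (minpoly.eq_of_irreducible_of_monic (polQ_irreducible (dg_two k)) (al_root k)
    (polQ_monic (dg_two k))).symm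

theorem al_int (k : ℕ) : IsIntegral ℚ (al k) := (Algebra.IsAlgebraic.isAlgebraic _).isIntegral

/-- the fields -/
noncomputable def Lf : ℕ → IntermediateField ℚ QBar
  | 0 => ⊥
  | n + 1 => (IntermediateField.adjoin (Lf n) {al n}).restrictScalars ℚ

theorem Lf_le (n : ℕ) : Lf n ≤ Lf (n + 1) := by
  intro x hx
  show x ∈ (IntermediateField.adjoin (Lf n) {al n}).restrictScalars ℚ
  rw [IntermediateField.mem_restrictScalars]
  exact (IntermediateField.adjoin (Lf n) {al n}).algebraMap_mem ⟨x, hx⟩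

theorem Lf_mono {m n : ℕ} (h : m ≤ n) : Lf m ≤ Lf n := monotone_nat_of_le_succ Lf_le h

theorem al_mem (n : ℕ) : al n ∈ Lf (n + 1) := by
  show al n ∈ (IntermediateField.adjoin (Lf n) {al n}).restrictScalars ℚ
  rw [IntermediateField.mem_restrictScalars]
  exact IntermediateField.mem_adjoin_simple_self _ _

theorem al_mem' {k n : ℕ} (h : k < n) : al k ∈ Lf n := Lf_mono h (al_mem k)

theorem finrank_succ (n : ℕ) :
    finrank ℚ (Lf (n + 1)) = finrank ℚ (Lf n) * (minpoly (Lf n) (al n)).natDegree := by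
  have h1 : IsIntegral (Lf n) (al n) := (al_int n).tower_top
  rw [← IntermediateField.adjoin.finrank h1]
  exact (Module.finrank_mul_finrank ℚ (Lf n) (IntermediateField.adjoin (Lf n) {al n})).symm

theorem minpoly_le (n : ℕ) : (minpoly (Lf n) (al n)).natDegree ≤ dg n := by
  have h1 : minpoly (Lf n) (al n) ∣ (minpoly ℚ (al n)).map (algebraMap ℚ (Lf n)) :=
    minpoly.dvd_map_of_isScalarTower ℚ (Lf n) (al n)
  have h3 : (minpoly ℚ (al n)).map (algebraMap ℚ (Lf n)) ≠ 0 := by
    rw [al_minpoly]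
    exact ((polQ_monic (dg_two n)).map _).ne_zero
  have h2 := Polynomial.natDegree_le_of_dvd h1 h3
  rw [al_minpoly, Polynomial.natDegree_map, polQ_deg (dg_two n)] at h2
  exact h2

theorem Lf_all (n : ℕ) : FiniteDimensional ℚ (Lf n) ∧
    (∀ k, n ≤ k → (finrank ℚ (Lf n)).Coprime (dg k)) ∧
    ∀ m < n, (minpoly (Lf m) (al m)).natDegree = dg m := by
  induction n with
  | zero =>
    refine ⟨?_, fun k _ => ?_, fun m hm => absurd hm (Nat.not_lt_zero m)⟩
    · show FiniteDimensional ℚ (⊥ : IntermediateField ℚ QBar)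
      infer_instance
    · show (finrank ℚ (⊥ : IntermediateField ℚ QBar)).Coprime (dg k)
      rw [IntermediateField.finrank_bot]
      exact Nat.coprime_one_left _
  | succ n ih =>
    obtain ⟨ih1, ih2, ih3⟩ := ih
    have h1 : IsIntegral (Lf n) (al n) := (al_int n).tower_top
    have h2 : FiniteDimensional (Lf n) (IntermediateField.adjoin (Lf n) {al n}) :=
      IntermediateField.adjoin.finiteDimensional h1
    have hfd : FiniteDimensional ℚ (Lf (n + 1)) := by
      have : FiniteDimensional ℚ (IntermediateField.adjoin (Lf n) {al n}) :=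
        FiniteDimensional.trans ℚ (Lf n) _
      exact this
    have hdvd : dg n ∣ finrank ℚ (Lf (n + 1)) := by
      have h3 : IsIntegral ℚ (⟨al n, al_mem n⟩ : Lf (n + 1)) :=
        (Algebra.IsAlgebraic.isAlgebraic _).isIntegral
      have h4 := minpoly.degree_dvd h3
      have h5 : minpoly ℚ (⟨al n, al_mem n⟩ : Lf (n + 1)) = polQ (dg n) := by
        rw [← al_minpoly n]
        exact (minpoly.algebraMap_eq (FaithfulSMul.algebraMap_injective (Lf (n + 1)) QBar)
          (⟨al n, al_mem n⟩ : Lf (n + 1))).symm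
      rw [h5, polQ_deg (dg_two n)] at h4
      exact h4
    rw [finrank_succ] at hdvd
    have h6 : dg n ∣ (minpoly (Lf n) (al n)).natDegree :=
      (ih2 n le_rfl).symm.dvd_of_dvd_mul_left hdvd
    have h7 : (minpoly (Lf n) (al n)).natDegree = dg n :=
      le_antisymm (minpoly_le n) (Nat.le_of_dvd (minpoly.natDegree_pos h1) h6)
    refine ⟨hfd, fun k hk => ?_, fun m hm => ?_⟩
    · rw [finrank_succ, h7]
      exact Nat.Coprime.mul_left (ih2 k (by omega))
        ((Nat.coprime_primes (dg_prime n) (dg_prime k)).2 (dg_inj (by omega)))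
    · rcases Nat.lt_succ_iff_lt_or_eq.1 hm with h | rfl
      · exact ih3 m h
      · exact h7

theorem minpoly_Lf (n : ℕ) :
    (polQ (dg n)).map (algebraMap ℚ (Lf n)) = minpoly (Lf n) (al n) := by
  have h1 : IsIntegral (Lf n) (al n) := (al_int n).tower_top
  refine Polynomial.eq_of_monic_of_dvd_of_natDegree_le (minpoly.monic h1)
    ((polQ_monic (dg_two n)).map _) ?_ ?_
  · rw [← al_minpoly n]
    exact minpoly.dvd_map_of_isScalarTower ℚ (Lf n) (al n)
  · rw [Polynomial.natDegree_map, polQ_deg (dg_two n), (Lf_all (n + 1)).2.2 n (Nat.lt_succ_self n)]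

/-- conjugation over the field `Lf n` -/
theorem conj (n : ℕ) (x : QBar) (hx : aeval x (polQ (dg n)) = 0) :
    ∃ σ : QBar ≃ₐ[ℚ] QBar, (∀ y ∈ Lf n, σ y = y) ∧ σ (al n) = x := by
  have hnorm : Normal (Lf n) QBar := by
    have h0 : IsAlgClosure ℚ QBar := ⟨inferInstance, inferInstance⟩
    have h0' : Normal ℚ QBar := IsAlgClosure.normal ℚ QBar
    infer_instance
  have h1 : IsAlgebraic (Lf n) (al n) := ((al_int n).tower_top : IsIntegral (Lf n) (al n)).isAlgebraic
  obtain ⟨σ, hσ⟩ := minpoly.exists_algEquiv_of_root' (K := Lf n) (L := QBar) (x := x) h1 (by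
    rw [← minpoly_Lf n, Polynomial.aeval_map_algebraMap]
    exact hx)
  exact ⟨σ.restrictScalars ℚ, fun y hy => σ.commutes ⟨y, hy⟩, hσ⟩

end Pool.Agent.Q298.SQ
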