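import Pool.Agent.Q298.SQ.Ind

/-!
# Patterns of valuations over `2`, the array of parameters
-/

set_option autoImplicit false

namespace Pool.Agent.Q298.SQ

open Polynomial

variable {p : ℕ} {v : AddValuation QBar (WithTop ℚ)}

theorem coe_pos' {q : ℚ} (h : 0 < q) : (0 : WithTop ℚ) < (q : WithTop ℚ) := by
  exact_mod_cast h

theorem nat_nonneg (h : Extends p v) (n : ℕ) : 0 ≤ v (n : QBar) := by
  by_cases hn : n = 0
  · rw [hn, Nat.cast_zero, AddValuation.map_zero]
    exact le_top
  · rw [h.nat hn]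
    exact_mod_cast Nat.zero_le _

theorem padic24 : padicValNat 2 24 = 3 := by
  have : (24 : ℕ) = 2 ^ 3 * 3 := by norm_num
  rw [this, padicValNat.mul (by norm_num) (by norm_num), padicValNat.prime_pow,
    padicValNat.eq_zero_of_not_dvd (by norm_num)]

theorem padic15 : padicValNat 2 15 = 0 := padicValNat.eq_zero_of_not_dvd (by norm_num)

theorem v24 (h : Extends 2 v) : v (24 : QBar) = ((3 : ℚ) : WithTop ℚ) := by
  have h1 := h.nat (n := 24) (by norm_num)
  rw [padic24] at h1
  exact_mod_cast h1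

theorem v15 (h : Extends 2 v) : v (15 : QBar) = 0 := by
  have h1 := h.nat (n := 15) (by norm_num)
  rw [padic15] at h1
  exact_mod_cast h1

/-- first element of the pair -/
noncomputable def bb (k : ℕ) : QBar := al k ^ (dg k - 1)

/-- second element of the pair -/
noncomputable def bc (k : ℕ) : QBar := al k + 15

theorem bb_bc (k : ℕ) : bb k * bc k = -24 := by
  have h1 := al_root k
  rw [aeval_polQ] at h1
  have h2 : al k ^ (dg k) = al k ^ (dg k - 1) * al k := by
    rw [← pow_succ]
    congr 1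
    have := dg_two k
    omega
  rw [h2] at h1
  unfold bb bc
  linear_combination h1

theorem al_nonneg (h : Extends p v) (k : ℕ) : 0 ≤ v (al k) := by
  by_contra hcon
  push Not at hcon
  have h1 : 0 ≤ v (15 : QBar) := by
    have := nat_nonneg h 15
    exact_mod_cast this
  have h2 : v (bc k) = v (al k) := AddValuation.map_add_eq_of_lt_left v (hcon.trans_le h1)
  have h3 : v (bb k * bc k) = v (24 : QBar) := by
    rw [bb_bc, AddValuation.map_neg]
  have h4 : 0 ≤ v (24 : QBar) := by
    have := nat_nonneg h 24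
    exact_mod_cast this
  rw [AddValuation.map_mul, h2] at h3
  have h5 : v (bb k) ≤ 0 := by
    unfold bb
    rw [AddValuation.map_pow]
    exact nsmul_nonpos hcon.le _
  have h6 : v (bb k) + v (al k) < 0 := by
    calc v (bb k) + v (al k) ≤ 0 + v (al k) := add_le_add_left h5 _
      _ = v (al k) := zero_add _
      _ < 0 := hcon
  rw [h3] at h6
  exact absurd h6 (not_lt.2 h4)

theorem bb_nonneg (h : Extends p v) (k : ℕ) : 0 ≤ v (bb k) := by
  unfold bb
  rw [AddValuation.map_pow]
  exact nsmul_nonneg (al_nonneg h k) _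

theorem bc_nonneg (h : Extends p v) (k : ℕ) : 0 ≤ v (bc k) := by
  unfold bc
  refine AddValuation.map_le_add v (al_nonneg h k) ?_
  have := nat_nonneg h 15
  exact_mod_cast this

theorem case_pos (h : Extends 2 v) (k : ℕ) (hk : 0 < v (al k)) : v (bc k) = 0 := by
  unfold bc
  rw [AddValuation.map_add_eq_of_lt_right v (by rw [v15 h]; exact hk), v15 h]

theorem case_zero (_h : Extends 2 v) (k : ℕ) (hk : v (al k) = 0) : v (bb k) = 0 := by
  unfold bb
  rw [AddValuation.map_pow, hk, smul_zero]

/-- one of the two elements has valuation `3` -/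
theorem dich (h : Extends 2 v) (k : ℕ) : v (bb k) = ((3 : ℚ) : WithTop ℚ) ∨
    v (bc k) = ((3 : ℚ) : WithTop ℚ) := by
  have h3 : v (bb k) + v (bc k) = ((3 : ℚ) : WithTop ℚ) := by
    rw [← AddValuation.map_mul, bb_bc, AddValuation.map_neg, v24 h]
  rcases (al_nonneg h k).eq_or_lt with h1 | h1
  · right
    rw [case_zero h k h1.symm, zero_add] at h3
    exact h3
  · left
    rw [case_pos h k h1, add_zero] at h3
    exact h3

theorem root_pos (h : Extends 2 v) (n : ℕ) :
    ∃ x : QBar, aeval x (polQ (dg n)) = 0 ∧ 0 < v x := by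
  have hm := dg_two n
  obtain ⟨x, h1, h2⟩ := exists_root (v := v) (P := (polQ (dg n)).map (algebraMap ℚ QBar))
    ((polQ_monic hm).map _) 0 (by
      rw [Polynomial.eval_map_algebraMap, aeval_polQ, zero_pow (by omega), zero_pow (by omega),
        mul_zero, zero_add, zero_add, v24 h]
      exact coe_pos' (by norm_num))
  rw [Polynomial.eval_map_algebraMap] at h1
  refine ⟨x, h1, ?_⟩
  rw [zero_sub, AddValuation.map_neg] at h2
  exact h2

theorem root_zero (h : Extends 2 v) (n : ℕ) :
    ∃ x : QBar, aeval x (polQ (dg n)) = 0 ∧ v x = 0 := by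
  have hm := dg_two n
  have h0 : ((-15 : QBar)) ^ dg n + (15 * (-15) ^ (dg n - 1) + 24) = 24 := by
    have h2 : (-15 : QBar) ^ (dg n) = (-15) ^ (dg n - 1) * (-15) := by
      rw [← pow_succ]
      congr 1
      omega
    rw [h2]
    ring
  obtain ⟨x, h1, h2⟩ := exists_root (v := v) (P := (polQ (dg n)).map (algebraMap ℚ QBar))
    ((polQ_monic hm).map _) (-15) (by
      rw [Polynomial.eval_map_algebraMap, aeval_polQ, h0, v24 h]
      exact coe_pos' (by norm_num))
  rw [Polynomial.eval_map_algebraMap] at h1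
  refine ⟨x, h1, ?_⟩
  have h3 : x = -15 - (-15 - x) := by ring
  have h4 : v (-15 : QBar) = 0 := by rw [AddValuation.map_neg, v15 h]
  rw [h3, AddValuation.map_sub_eq_of_lt_left v (by rw [h4]; exact h2), h4]

/-- all patterns occur -/
theorem pattern (ε : ℕ → Bool) (n : ℕ) : ∃ v : AddValuation QBar (WithTop ℚ), Extends 2 v ∧
    ∀ k < n, (ε k = true → v (bb k) = 0) ∧ (ε k = false → v (bc k) = 0) := by
  induction n with
  | zero => exact ⟨v2, v2_extends, fun k hk => absurd hk (Nat.not_lt_zero k)⟩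
  | succ n ih =>
    obtain ⟨v, hv, ih⟩ := ih
    have hx : ∃ x : QBar, aeval x (polQ (dg n)) = 0 ∧ (ε n = true → v x = 0) ∧
        (ε n = false → 0 < v x) := by
      cases hε : ε n with
      | true =>
        obtain ⟨x, h1, h2⟩ := root_zero hv n
        exact ⟨x, h1, fun _ => h2, fun h => by simp at h⟩
      | false =>
        obtain ⟨x, h1, h2⟩ := root_pos hv n
        exact ⟨x, h1, fun h => by simp at h, fun _ => h2⟩
    obtain ⟨x, hx1, hx2, hx3⟩ := hx
    obtain ⟨σ, hσ1, hσ2⟩ := conj n x hx1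
    refine ⟨v.comap (σ : QBar →+* QBar), hv.comp σ, fun k hk => ?_⟩
    have hv' := hv.comp σ
    rcases Nat.lt_succ_iff_lt_or_eq.1 hk with hk | rfl
    · have h1 : σ (al k) = al k := hσ1 _ (al_mem' hk)
      have h2 : σ (bb k) = bb k := by unfold bb; rw [map_pow, h1]
      have h3 : σ (bc k) = bc k := by unfold bc; rw [map_add, h1]; exact congrArg _ (map_ofNat σ 15)
      have h4 : (v.comap (σ : QBar →+* QBar)) (bb k) = v (bb k) := by
        show v (σ (bb k)) = _
        rw [h2]
      have h5 : (v.comap (σ : QBar →+* QBar)) (bc k) = v (bc k) := by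
        show v (σ (bc k)) = _
        rw [h3]
      rw [h4, h5]
      exact ih k hk
    · have h4 : (v.comap (σ : QBar →+* QBar)) (al k) = v x := by
        show v (σ (al k)) = _
        rw [hσ2]
      exact ⟨fun h => case_zero hv' k (by rw [h4]; exact hx2 h),
        fun h => case_pos hv' k (by rw [h4]; exact hx3 h)⟩

/-- the array -/
noncomputable def ee (i j : ℕ) : QBar :=
  (∏ l ∈ Finset.range j, bb (Nat.pair i l)) * bc (Nat.pair i j)

theorem prod_nonneg' (s : Finset ℕ) (f : ℕ → QBar) (hf : ∀ l ∈ s, 0 ≤ v (f l)) :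
    0 ≤ v (∏ l ∈ s, f l) := by
  induction s using Finset.induction_on with
  | empty => simp
  | insert a s ha ih =>
    rw [Finset.prod_insert ha, AddValuation.map_mul]
    exact add_nonneg (hf a (Finset.mem_insert_self a s))
      (ih fun l hl => hf l (Finset.mem_insert_of_mem hl))

theorem prod_zero' (s : Finset ℕ) (f : ℕ → QBar) (hf : ∀ l ∈ s, v (f l) = 0) :
    v (∏ l ∈ s, f l) = 0 := by
  induction s using Finset.induction_on with
  | empty => simp
  | insert a s ha ih =>
    rw [Finset.prod_insert ha, AddValuation.map_mul, hf a (Finset.mem_insert_self a s),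
      ih fun l hl => hf l (Finset.mem_insert_of_mem hl), add_zero]

theorem ee_nonneg (h : Extends p v) (i j : ℕ) : 0 ≤ v (ee i j) := by
  unfold ee
  rw [AddValuation.map_mul]
  exact add_nonneg (prod_nonneg' _ _ fun l _ => bb_nonneg h _) (bc_nonneg h _)

theorem bb_ne (k : ℕ) : bb k ≠ 0 := by
  intro h
  have := bb_bc k
  rw [h, zero_mul] at this
  norm_num at this

theorem bc_ne (k : ℕ) : bc k ≠ 0 := by
  intro h
  have := bb_bc k
  rw [h, mul_zero] at this
  norm_num at this

theorem ee_ne (i j : ℕ) : ee i j ≠ 0 :=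
  mul_ne_zero (Finset.prod_ne_zero_iff.2 fun _ _ => bb_ne _) (bc_ne _)

/-- the rows -/
theorem ee_row (h : Extends 2 v) (i : ℕ) {j k : ℕ} (hjk : j < k)
    (hj : v (ee i j) < ((2 : ℚ) : WithTop ℚ)) : ((2 : ℚ) : WithTop ℚ) ≤ v (ee i k) := by
  have h1 : v (bc (Nat.pair i j)) ≤ v (ee i j) := by
    unfold ee
    rw [AddValuation.map_mul]
    exact le_add_of_nonneg_left (prod_nonneg' _ _ fun l _ => bb_nonneg h _)
  have h2 : v (bb (Nat.pair i j)) ≤ v (ee i k) := by
    unfold ee
    rw [AddValuation.map_mul, ← Finset.mul_prod_erase _ _ (Finset.mem_range.2 hjk),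
      AddValuation.map_mul, add_assoc]
    exact le_add_of_nonneg_right (add_nonneg (prod_nonneg' _ _ fun l _ => bb_nonneg h _)
      (bc_nonneg h _))
  have h3 : ((2 : ℚ) : WithTop ℚ) < ((3 : ℚ) : WithTop ℚ) := by
    exact_mod_cast (by norm_num : (2 : ℚ) < 3)
  rcases dich h (Nat.pair i j) with h4 | h4
  · rw [h4] at h2
    exact h3.le.trans h2
  · rw [h4] at h1
    exact absurd (h1.trans_lt hj) (not_lt.2 h3.le)

/-- the paths -/
theorem ee_path (f : ℕ → ℕ) (N : ℕ) : ∃ v : AddValuation QBar (WithTop ℚ), Extends 2 v ∧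
    ∀ i < N, v (ee i (f i)) = 0 := by
  obtain ⟨n, hn⟩ : ∃ n, ∀ i < N, Nat.pair i (f i) < n := by
    refine ⟨(Finset.range N).sup (fun i => Nat.pair i (f i)) + 1, fun i hi => ?_⟩
    exact Nat.lt_succ_of_le (Finset.le_sup (f := fun i => Nat.pair i (f i)) (Finset.mem_range.2 hi))
  obtain ⟨v, hv, h1⟩ := pattern (fun k => decide (k.unpair.2 < f k.unpair.1)) n
  refine ⟨v, hv, fun i hi => ?_⟩
  unfold ee
  rw [AddValuation.map_mul, prod_zero', (h1 _ (hn i hi)).2 (by simp), add_zero]
  intro l hl
  have hl' : l < f i := Finset.mem_range.1 hl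
  have h2 : Nat.pair i l < n := (Nat.pair_lt_pair_right i hl').trans (hn i hi)
  exact (h1 _ h2).1 (by simp [hl'])

end Pool.Agent.Q298.SQ
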