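import Pool.Agent.Q298.SQ.Pat

/-!
# Solutions of the formulas along the paths
-/

set_option autoImplicit false

namespace Pool.Agent.Q298.SQ

open Polynomial

/-- all valuations are less than `2` -/
def Sqf (a : QBar) : Prop :=
  ∀ (p : ℕ) (v : AddValuation QBar (WithTop ℚ)), p.Prime → Extends p v → v a < 2

theorem two_eq : (2 : WithTop ℚ) = ((2 : ℚ) : WithTop ℚ) := rfl

theorem v_two {p : ℕ} {v : AddValuation QBar (WithTop ℚ)} (h : Extends p v) (hp : p.Prime) :
    (p = 2 ∧ v (2 : QBar) = ((1 : ℚ) : WithTop ℚ)) ∨ (p ≠ 2 ∧ v (2 : QBar) = 0) := by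
  have h1 := h.nat (n := 2) (by norm_num)
  by_cases h2 : p = 2
  · left
    subst h2
    refine ⟨rfl, ?_⟩
    have h3 : padicValNat 2 2 = 1 := padicValNat.self (by norm_num)
    rw [h3] at h1
    exact_mod_cast h1
  · right
    refine ⟨h2, ?_⟩
    have h3 : padicValNat p 2 = 0 := by
      refine padicValNat.eq_zero_of_not_dvd fun h4 => h2 ?_
      exact (Nat.prime_dvd_prime_iff_eq hp Nat.prime_two).1 h4
    rw [h3] at h1
    exact_mod_cast h1

/-- the condition of the formula -/
def Cond (x e : QBar) : Prop := Sqf (x - e) ∧ ¬ Sqf x ∧ ∃ z, z + z = x ∧ Sqf z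

theorem v_double {v : AddValuation QBar (WithTop ℚ)} {x z : QBar} (h : z + z = x) :
    v x = v (2 : QBar) + v z := by
  rw [← h, ← two_mul, AddValuation.map_mul]

theorem row (i : ℕ) {j k : ℕ} (hjk : j < k) (x : QBar) (h1 : Cond x (ee i j))
    (h2 : Cond x (ee i k)) : False := by
  obtain ⟨h1, h3, z, hz1, hz2⟩ := h1
  have h4 := h2.1
  unfold Sqf at h3
  push Not at h3
  obtain ⟨p, v, hp, hv, h3⟩ := h3
  have h5 : p = 2 := by
    rcases v_two hv hp with ⟨h5, -⟩ | ⟨-, h5⟩
    · exact h5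
    · rw [v_double (v := v) hz1, h5, zero_add] at h3
      exact absurd (hz2 p v hp hv) (not_lt.2 h3)
  subst h5
  have key : ∀ e : QBar, v (x - e) < 2 → v e < 2 := by
    intro e he
    by_contra hcon
    push Not at hcon
    exact absurd (AddValuation.map_le_sub v h3 hcon) (not_le.2 he)
  have h6 := key _ (h1 2 v hp hv)
  have h7 := key _ (h4 2 v hp hv)
  exact absurd (ee_row hv i hjk h6) (not_le.2 h7)

theorem two_le_of_nonneg {a b c : WithTop ℚ} (h : a + b = c) (hb : 0 ≤ b) : a ≤ c := by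
  rw [← h]
  exact le_add_of_nonneg_right hb

theorem path (f : ℕ → ℕ) (N : ℕ) : ∃ x : QBar, ∀ i < N, Cond x (ee i (f i)) := by
  obtain ⟨v, hv, hv0⟩ := ee_path f N
  set e : ℕ → QBar := fun i => ee i (f i) with he
  set E : QBar := ∏ i ∈ Finset.range N, e i with hE
  have hE0 : E ≠ 0 := Finset.prod_ne_zero_iff.2 fun i _ => ee_ne i (f i)
  have hvE : v E = 0 := prod_zero' _ _ fun i hi => hv0 i (Finset.mem_range.1 hi)
  have hv4 : v (4 : QBar) = ((2 : ℚ) : WithTop ℚ) := by
    have h1 : (4 : QBar) = 2 * 2 := by norm_num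
    rcases v_two hv Nat.prime_two with ⟨-, h2⟩ | ⟨h2, -⟩
    · rw [h1, AddValuation.map_mul, h2]
      exact_mod_cast (by norm_num : (1 : ℚ) + 1 = 2)
    · exact absurd rfl h2
  -- the polynomial
  set Q : QBar[X] := X * (∏ i ∈ Finset.range N, (X - C (e i))) ^ 2 with hQ
  have hQm : Q.Monic :=
    Polynomial.monic_X.mul ((Polynomial.monic_prod_X_sub_C _ _).pow 2)
  have hQd : 0 < Q.degree := by
    rw [hQ, Polynomial.degree_mul, Polynomial.degree_X]
    have h1 : (0 : WithBot ℕ) ≤ ((∏ i ∈ Finset.range N, (X - C (e i))) ^ 2).degree :=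
      Polynomial.zero_le_degree_iff.2
        (((Polynomial.monic_prod_X_sub_C e (Finset.range N)).pow 2).ne_zero)
    calc (0 : WithBot ℕ) < 1 := by norm_num
      _ = 1 + 0 := (add_zero _).symm
      _ ≤ 1 + _ := by gcongr
  have hPm : (Q - C (4 / E)).Monic :=
    hQm.sub_of_left (lt_of_le_of_lt Polynomial.degree_C_le hQd)
  have hv4E : v (4 / E) = ((2 : ℚ) : WithTop ℚ) := by
    have h1 : v (4 / E) + v E = v (4 : QBar) := by
      rw [← AddValuation.map_mul, div_mul_cancel₀ _ hE0]
    rw [hvE, add_zero, hv4] at h1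
    exact h1
  obtain ⟨x, hx1, hx2⟩ := exists_root (v := v) hPm 0 (by
    rw [hQ, Polynomial.eval_sub, Polynomial.eval_mul, Polynomial.eval_X, zero_mul, zero_sub,
      Polynomial.eval_C, AddValuation.map_neg, hv4E]
    exact coe_pos' (by norm_num))
  rw [zero_sub, AddValuation.map_neg] at hx2
  set W : QBar := ∏ i ∈ Finset.range N, (x - e i) with hW
  have hx3 : x * W ^ 2 * E = 4 := by
    rw [hQ, Polynomial.eval_sub, Polynomial.eval_mul, Polynomial.eval_X, Polynomial.eval_C,
      Polynomial.eval_pow, Polynomial.eval_prod] at hx1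
    simp only [Polynomial.eval_sub, Polynomial.eval_X, Polynomial.eval_C] at hx1
    rw [← hW] at hx1
    rw [sub_eq_zero.1 hx1, div_mul_cancel₀ _ hE0]
  -- general valuations
  have hE' : ∀ {p : ℕ} {w : AddValuation QBar (WithTop ℚ)}, Extends p w → 0 ≤ w E := fun hw =>
    prod_nonneg' _ _ fun i _ => ee_nonneg hw i (f i)
  have gen1 : ∀ {p : ℕ} {w : AddValuation QBar (WithTop ℚ)}, Extends p w → 0 ≤ w x →
      w x ≤ w (2 : QBar) + w 2 := by
    intro p w hw h0
    have h1 : 0 ≤ w W := prod_nonneg' _ _ fun i _ => AddValuation.map_le_sub w h0 (ee_nonneg hw i (f i))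
    have h2 : w (2 : QBar) + w 2 = w x + (2 • w W + w E) := by
      rw [← AddValuation.map_mul, ← AddValuation.map_pow, ← AddValuation.map_mul,
        ← AddValuation.map_mul, ← mul_assoc, hx3]
      norm_num
    rw [h2]
    exact le_add_of_nonneg_right (add_nonneg (nsmul_nonneg h1 2) (hE' hw))
  have gen2 : ∀ {p : ℕ} {w : AddValuation QBar (WithTop ℚ)}, Extends p w → 0 ≤ w x →
      ∀ i < N, w (x - e i) + w (x - e i) ≤ w (2 : QBar) + w 2 := by
    intro p w hw h0 i hi
    have h3 : W = (x - e i) * ∏ l ∈ (Finset.range N).erase i, (x - e l) :=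
      (Finset.mul_prod_erase _ _ (Finset.mem_range.2 hi)).symm
    set R : QBar := ∏ l ∈ (Finset.range N).erase i, (x - e l) with hR
    have h1 : 0 ≤ w R := prod_nonneg' _ _ fun i _ => AddValuation.map_le_sub w h0 (ee_nonneg hw i (f i))
    have h2 : w (2 : QBar) + w 2 = (w (x - e i) + w (x - e i)) + (w x + (2 • w R + w E)) := by
      rw [← AddValuation.map_mul, ← AddValuation.map_pow, ← AddValuation.map_mul,
        ← AddValuation.map_mul, ← AddValuation.map_mul, ← AddValuation.map_mul]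
      congr 1
      rw [h3] at hx3
      linear_combination -hx3
    rw [h2]
    exact le_add_of_nonneg_right (add_nonneg h0 (add_nonneg (nsmul_nonneg h1 2) (hE' hw)))
  have num : ∀ {p : ℕ} {w : AddValuation QBar (WithTop ℚ)}, Extends p w → p.Prime →
      w (2 : QBar) + w 2 < w (2 : QBar) + 2 ∧ w (2 : QBar) + w 2 < 2 + 2 := by
    intro p w hw hp
    rcases v_two hw hp with ⟨-, h1⟩ | ⟨-, h1⟩
    · rw [h1, two_eq]
      constructor
      · exact_mod_cast (by norm_num : (1 : ℚ) + 1 < 1 + 2)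
      · exact_mod_cast (by norm_num : (1 : ℚ) + 1 < 2 + 2)
    · rw [h1, two_eq]
      constructor
      · exact_mod_cast (by norm_num : (0 : ℚ) + 0 < 0 + 2)
      · exact_mod_cast (by norm_num : (0 : ℚ) + 0 < 2 + 2)
  have h2pos : (0 : WithTop ℚ) < 2 := by rw [two_eq]; exact coe_pos' (by norm_num)
  have sq1 : ∀ i < N, Sqf (x - e i) := by
    intro i hi p w hp hw
    by_contra hcon
    push Not at hcon
    by_cases h0 : 0 ≤ w x
    · have h1 := gen2 hw h0 i hi
      have h2 := (num hw hp).2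
      exact absurd (h1.trans_lt h2) (not_lt.2 (add_le_add hcon hcon))
    · push Not at h0
      have h1 : w (x - e i) = w x :=
        AddValuation.map_sub_eq_of_lt_left w (h0.trans_le (ee_nonneg hw i (f i)))
      rw [h1] at hcon
      exact absurd (h2pos.trans_le hcon) (not_lt.2 h0.le)
  have sq2 : ∃ z, z + z = x ∧ Sqf z := by
    refine ⟨x / 2, by ring, ?_⟩
    intro p w hp hw
    by_contra hcon
    push Not at hcon
    have h3 : w x = w 2 + w (x / 2) := v_double (by ring)
    have h4 : 0 ≤ w (2 : QBar) := by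
      have := nat_nonneg hw 2
      exact_mod_cast this
    have h5 : w (2 : QBar) + 2 ≤ w x := by
      rw [h3]
      exact add_le_add_right hcon _
    have h0 : 0 ≤ w x := (add_nonneg h4 h2pos.le).trans h5
    exact absurd ((gen1 hw h0).trans_lt (num hw hp).1) (not_lt.2 h5)
  have nsq : ¬ Sqf x := by
    intro h
    have h1 := h 2 v Nat.prime_two hv
    have h2 : v W = 0 := prod_zero' _ _ fun i hi => by
      have h3 : v (e i) = 0 := hv0 i (Finset.mem_range.1 hi)
      rw [AddValuation.map_sub_eq_of_lt_right v (by rw [h3]; exact hx2), h3]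
    have h3 : v x + (2 • v W + v E) = v 4 := by
      rw [← AddValuation.map_pow, ← AddValuation.map_mul, ← AddValuation.map_mul, ← mul_assoc, hx3]
    rw [h2, hvE, smul_zero, add_zero, add_zero, hv4] at h3
    rw [h3] at h1
    exact absurd h1 (lt_irrefl _)
  exact ⟨x, fun i hi => ⟨sq1 i hi, nsq, sq2⟩⟩

end Pool.Agent.Q298.SQ
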