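import Mathlib

/-!
# Valuations of the algebraic numbers: existence over `2`, roots, conjugation
-/

set_option autoImplicit false

namespace Pool.Agent.Q298.SQ

open Polynomial

/-- The algebraic numbers. -/
abbrev QBar : Type := AlgebraicClosure ℚ

instance isAlg : Algebra.IsAlgebraic ℚ QBar := AlgebraicClosure.isAlgebraic ℚ

/-- `v` extends the `p`-adic valuation of `ℚ`. -/
def Extends (p : ℕ) (v : AddValuation QBar (WithTop ℚ)) : Prop :=
  ∀ q : ℚ, q ≠ 0 → v (algebraMap ℚ QBar q) = ((padicValRat p q : ℚ) : WithTop ℚ)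

theorem norm_rat (x : PadicAlgCl 2) (hx : x ≠ 0) : ∃ r : ℚ, ‖x‖ = (2 : ℝ) ^ (-(r : ℝ)) := by
  have h1 : ‖x‖ = ‖(minpoly ℚ_[2] x).coeff 0‖ ^ (1 / ((minpoly ℚ_[2] x).natDegree : ℝ)) := by
    rw [← PadicAlgCl.spectralNorm_eq]
    exact spectralNorm.spectralNorm_eq_norm_coeff_zero_rpow _ _ x
  have hint : IsIntegral ℚ_[2] x := (Algebra.IsAlgebraic.isAlgebraic x).isIntegral
  have h2 : (minpoly ℚ_[2] x).coeff 0 ≠ 0 := minpoly.coeff_zero_ne_zero hint hx
  have h3 := Padic.norm_eq_zpow_neg_valuation h2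
  refine ⟨((minpoly ℚ_[2] x).coeff 0).valuation / ((minpoly ℚ_[2] x).natDegree : ℚ), ?_⟩
  rw [h1, h3, ← Real.rpow_intCast, ← Real.rpow_mul (by norm_num)]
  congr 1
  push_cast
  ring

theorem expo_unique {r s : ℚ} (h : (2 : ℝ) ^ (-(r : ℝ)) = (2 : ℝ) ^ (-(s : ℝ))) : r = s := by
  have h1 : -(r : ℝ) = -(s : ℝ) :=
    (Real.rpow_right_inj (by norm_num : (0 : ℝ) < 2) (by norm_num)).1 h
  exact_mod_cast neg_inj.1 h1

theorem expo_le {r s : ℚ} (h : (2 : ℝ) ^ (-(r : ℝ)) ≤ (2 : ℝ) ^ (-(s : ℝ))) : s ≤ r := by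
  have h1 : -(r : ℝ) ≤ -(s : ℝ) :=
    (Real.rpow_le_rpow_left_iff (by norm_num : (1 : ℝ) < 2)).1 h
  exact_mod_cast neg_le_neg_iff.1 h1

/-- an embedding -/
noncomputable def iot : QBar →ₐ[ℚ] PadicAlgCl 2 := IsAlgClosed.lift

theorem iot_ne {x : QBar} (hx : x ≠ 0) : iot x ≠ 0 :=
  fun h => hx ((map_eq_zero iot).1 h)

open Classical in
/-- the exponent -/
noncomputable def val0 (x : QBar) : WithTop ℚ :=
  if h : x = 0 then ⊤ else ((norm_rat (iot x) (iot_ne h)).choose : WithTop ℚ)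

theorem val0_zero : val0 0 = ⊤ := by
  unfold val0
  rw [dif_pos rfl]

theorem val0_spec {x : QBar} (hx : x ≠ 0) : ∃ r : ℚ, val0 x = (r : WithTop ℚ) ∧
    ‖iot x‖ = (2 : ℝ) ^ (-(r : ℝ)) := by
  refine ⟨(norm_rat (iot x) (iot_ne hx)).choose, ?_, (norm_rat (iot x) (iot_ne hx)).choose_spec⟩
  unfold val0
  rw [dif_neg hx]

theorem val0_eq {x : QBar} (hx : x ≠ 0) {r : ℚ} (h : ‖iot x‖ = (2 : ℝ) ^ (-(r : ℝ))) :
    val0 x = (r : WithTop ℚ) := by
  obtain ⟨s, h1, h2⟩ := val0_spec hx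
  rw [h1, expo_unique (h2.symm.trans h)]

theorem val0_mul (x y : QBar) : val0 (x * y) = val0 x + val0 y := by
  by_cases hx : x = 0
  · rw [hx, zero_mul, val0_zero, top_add]
  by_cases hy : y = 0
  · rw [hy, mul_zero, val0_zero, add_top]
  obtain ⟨r, h1, h2⟩ := val0_spec hx
  obtain ⟨s, h3, h4⟩ := val0_spec hy
  rw [h1, h3]
  have h5 : ‖iot (x * y)‖ = (2 : ℝ) ^ (-((r + s : ℚ) : ℝ)) := by
    rw [map_mul, norm_mul, h2, h4, ← Real.rpow_add (by norm_num)]
    congr 1
    push_cast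
    ring
  rw [val0_eq (mul_ne_zero hx hy) h5]
  rfl

theorem val0_add (x y : QBar) : min (val0 x) (val0 y) ≤ val0 (x + y) := by
  by_cases hx : x = 0
  · rw [hx, zero_add]
    exact min_le_right _ _
  by_cases hy : y = 0
  · rw [hy, add_zero]
    exact min_le_left _ _
  by_cases hxy : x + y = 0
  · rw [hxy, val0_zero]
    exact le_top
  obtain ⟨r, h1, h2⟩ := val0_spec hx
  obtain ⟨s, h3, h4⟩ := val0_spec hy
  obtain ⟨t, h5, h6⟩ := val0_spec hxy
  have h7 := PadicAlgCl.isNonarchimedean 2 (iot x) (iot y)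
  rw [← map_add, h6, h2, h4] at h7
  rw [h1, h3, h5]
  rcases le_max_iff.1 h7 with h | h
  · exact (min_le_left _ _).trans (WithTop.coe_le_coe.2 (expo_le h))
  · exact (min_le_right _ _).trans (WithTop.coe_le_coe.2 (expo_le h))

/-- a valuation over `2` -/
noncomputable def v2 : AddValuation QBar (WithTop ℚ) :=
  AddValuation.of val0 val0_zero (by
    have h := val0_eq (x := 1) one_ne_zero (r := 0) (by
      rw [map_one, norm_one]
      simp)
    rw [h]
    rfl) val0_add val0_mul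

theorem v2_extends : Extends 2 v2 := by
  intro q hq
  show val0 (algebraMap ℚ QBar q) = _
  refine val0_eq (fun h => hq ((map_eq_zero _).1 h)) ?_
  have h1 : iot (algebraMap ℚ QBar q) = algebraMap ℚ_[2] (PadicAlgCl 2) (q : ℚ_[2]) := by
    rw [AlgHom.commutes]
    simp
  rw [h1]
  have h2 := PadicAlgCl.norm_extends 2 (q : ℚ_[2])
  rw [h2, Padic.norm_eq_zpow_neg_valuation (by exact_mod_cast hq), Padic.valuation_ratCast,
    ← Real.rpow_intCast]
  congr 1
  push_cast
  ring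

/-! ### general facts -/

variable {p : ℕ} {v : AddValuation QBar (WithTop ℚ)}

theorem Extends.rat (h : Extends p v) {q : ℚ} (hq : q ≠ 0) :
    v (algebraMap ℚ QBar q) = ((padicValRat p q : ℚ) : WithTop ℚ) := h q hq

theorem Extends.nat (h : Extends p v) {n : ℕ} (hn : n ≠ 0) :
    v (n : QBar) = ((padicValNat p n : ℚ) : WithTop ℚ) := by
  have h1 := h (n : ℚ) (by exact_mod_cast hn)
  rw [map_natCast] at h1
  rw [h1]
  simp

theorem Extends.comp (h : Extends p v) (σ : QBar ≃ₐ[ℚ] QBar) :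
    Extends p (v.comap (σ : QBar →+* QBar)) := by
  intro q hq
  rw [← h q hq]
  show v (σ (algebraMap ℚ QBar q)) = _
  rw [AlgEquiv.commutes]

theorem comap_apply (σ : QBar →+* QBar) (x : QBar) : v.comap σ x = v (σ x) := rfl

/-- a monic polynomial with small value has a close root -/
theorem exists_root {P : QBar[X]} (hP : P.Monic) (c : QBar) (h : 0 < v (P.eval c)) :
    ∃ x, P.eval x = 0 ∧ 0 < v (c - x) := by
  by_contra hcon
  push Not at hcon
  have h1 : P = (P.roots.map fun a => X - C a).prod :=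
    (IsAlgClosed.splits P).eq_prod_roots_of_monic hP
  have h2 : P.eval c = (P.roots.map fun a => c - a).prod := by
    conv_lhs => rw [h1]
    rw [Polynomial.eval_multiset_prod, Multiset.map_map]
    simp
  have h3 : ∀ s : Multiset QBar, (∀ a ∈ s, v (c - a) ≤ 0) → v (s.map fun a => c - a).prod ≤ 0 := by
    intro s
    induction s using Multiset.induction_on with
    | empty =>
      intro _
      simp
    | cons a s ih =>
      intro hs
      rw [Multiset.map_cons, Multiset.prod_cons, AddValuation.map_mul]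
      have h4 := hs a (Multiset.mem_cons_self a s)
      have h5 := ih fun b hb => hs b (Multiset.mem_cons_of_mem hb)
      calc v (c - a) + v (s.map fun a => c - a).prod ≤ 0 + 0 := add_le_add h4 h5
        _ = 0 := add_zero 0
  have h4 := h3 P.roots fun a ha => hcon a ((Polynomial.mem_roots hP.ne_zero).1 ha)
  rw [← h2] at h4
  exact absurd h (not_lt.2 h4)

end Pool.Agent.Q298.SQ
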